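import Pool.Agent.H60.LQ.Two
import Pool.Agent.H62.LQ.NRG

/-!
# LQ, row NRG3: mean energies after conditioning on a variable with few values
-/

set_option autoImplicit false

namespace Pool.LQ

open Finset Real
open Pool.Agent.H49.Ent Pool.Agent.H32.Dense Pool.KTH

private lemma nrg3_ell_le (J : ℕ) (x y : ℤ) : ell (2 ^ J) x y ≤ lm J := by
  unfold ell lm
  have h1 : (1 : ℝ) ≤ max |(x : ℝ) - y| 1 := le_max_right _ _
  have h2 : (0 : ℝ) < ((2 ^ J : ℕ) : ℝ) := by positivity
  have h3 : Real.log (((2 ^ J : ℕ) : ℝ) / max |(x : ℝ) - y| 1) ≤ Real.log ((2 ^ J : ℕ) : ℝ) := by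
    refine Real.log_le_log (by positivity) ?_
    exact div_le_self h2.le h1
  refine h3.trans (le_of_eq ?_)
  push_cast
  rw [Real.log_pow]

/-- (NRG3). -/
theorem nrg3_thm : NRG3Stmt := by
  classical
  intro N ε hε
  refine ⟨(N + 1) / ε, by positivity, ?_⟩
  intro J Ω _ β p b w τ hp h1 hw hτ
  have hN : (0 : ℝ) < N + 1 := by positivity
  obtain ⟨δ, hδ⟩ : ∃ δ : ℝ, δ = ε / (N + 1) := ⟨_, rfl⟩
  have hδ0 : 0 < δ := by rw [hδ]; positivity
  have hτ' : ∀ ω, 0 < p ω → 0 ≤ τ ω ∧ τ ω < ((2 ^ J : ℕ) : ℤ) := by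
    intro ω h
    obtain ⟨a1, a2⟩ := hτ ω h
    refine ⟨a1, ?_⟩
    push_cast
    exact a2
  have hell : ∀ ω ω', 0 < p ω → 0 < p ω' → 0 ≤ ell (2 ^ J) (τ ω) (τ ω') := fun ω ω' a a' =>
    ell_nonneg (by positivity) (hτ' ω a) (hτ' ω' a')
  have hterm : ∀ ω ω', 0 < p ω → 0 ≤ p ω' * ell (2 ^ J) (τ ω) (τ ω') := by
    intro ω ω' a
    rcases eq_or_lt_of_le (hp ω') with e | e
    · rw [← e, zero_mul]
    · exact mul_nonneg e.le (hell ω ω' a e)
  have hlm : 0 ≤ lm J := by unfold lm; positivity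
  set b' : Ω → β × ℕ := fun ω => (b ω, w ω) with hb'
  -- the inner sums
  obtain ⟨In, hIn⟩ : ∃ In : ∀ γ : Type, (Ω → γ) → Ω → ℝ, ∀ γ c ω, In γ c ω =
      ∑ ω', (if c ω' = c ω then p ω' * ell (2 ^ J) (τ ω) (τ ω') else 0) := ⟨_, fun _ _ _ => rfl⟩
  have hin : ∀ (γ : Type) (c : Ω → γ) (ω : Ω), 0 < p ω →
      ∑ ω', dbl p c (ω, ω') * ell (2 ^ J) (τ ω) (τ ω') =
      p ω / law p c (c ω) * In γ c ω := by
    intro γ c ω _
    rw [hIn, Finset.mul_sum]
    refine Finset.sum_congr rfl (fun ω' _ => ?_)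
    unfold dbl glue
    dsimp only
    by_cases hh : c ω = c ω'
    · rw [if_pos hh, if_pos hh.symm]
      ring
    · rw [if_neg hh, if_neg (fun e => hh e.symm), zero_mul, mul_zero]
  have hnn : ∀ (γ : Type) (c : Ω → γ) (ω : Ω), 0 < p ω → 0 ≤ In γ c ω := by
    intro γ c ω a
    rw [hIn]
    refine Finset.sum_nonneg (fun ω' _ => ?_)
    split_ifs
    · exact hterm ω ω' a
    · exact le_rfl
  have key : ∀ ω, ∑ ω', dbl p b' (ω, ω') * ell (2 ^ J) (τ ω) (τ ω') ≤
      δ * lm J * (p ω * (law p b (b ω) / law p b' (b ω, w ω))) +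
        δ⁻¹ * ∑ ω', dbl p b (ω, ω') * ell (2 ^ J) (τ ω) (τ ω') := by
    intro ω
    rcases eq_or_lt_of_le (hp ω) with e | e
    · have hz : ∀ (γ : Type) (c : Ω → γ), ∑ ω', dbl p c (ω, ω') * ell (2 ^ J) (τ ω) (τ ω') = 0 := by
        intro γ c
        refine Finset.sum_eq_zero (fun ω' _ => ?_)
        have : dbl p c (ω, ω') = 0 := by
          unfold dbl glue
          split_ifs
          · simp [← e]
          · rfl
        rw [this, zero_mul]
      have h2 := hz _ b'
      have h3 := hz _ b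
      rw [h2, h3, ← e]
      simp
    · have hL : 0 < law p b (b ω) := law_pos hp b e
      have hl : 0 < law p b' (b' ω) := law_pos hp b' e
      have hle : (b ω, w ω) = b' ω := rfl
      rw [hle]
      have hsub : In _ b' ω ≤ In _ b ω := by
        rw [hIn, hIn]
        refine Finset.sum_le_sum (fun ω' _ => ?_)
        by_cases h5 : b' ω' = b' ω
        · rw [if_pos h5, if_pos (Prod.mk.inj h5).1]
        · rw [if_neg h5]
          split_ifs
          · exact hterm ω ω' e
          · exact le_rfl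
      have hub : In _ b' ω ≤ lm J * law p b' (b' ω) := by
        rw [hIn]
        unfold law
        rw [Finset.mul_sum]
        refine Finset.sum_le_sum (fun ω' _ => ?_)
        by_cases h5 : b' ω' = b' ω
        · rw [if_pos h5, if_pos h5, mul_comm]
          exact mul_le_mul_of_nonneg_right (nrg3_ell_le J _ _) (hp ω')
        · rw [if_neg h5, if_neg h5, mul_zero]
      rw [hin _ b' ω e, hin _ b ω e]
      have hA0 := hnn _ b ω e
      obtain ⟨A, hA⟩ : ∃ A : ℝ, A = In _ b ω := ⟨_, rfl⟩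
      obtain ⟨A', hA'⟩ : ∃ A' : ℝ, A' = In _ b' ω := ⟨_, rfl⟩
      rw [← hA] at hA0 hsub
      rw [← hA'] at hsub hub
      rw [← hA, ← hA']
      rcases le_or_gt (law p b' (b' ω)) (δ * law p b (b ω)) with hc | hc
      · have h6 : p ω / law p b' (b' ω) * A' ≤ p ω * lm J := by
          calc p ω / law p b' (b' ω) * A' ≤ p ω / law p b' (b' ω) * (lm J * law p b' (b' ω)) :=
                mul_le_mul_of_nonneg_left hub (div_nonneg e.le hl.le)
            _ = p ω * lm J := by field_simp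
        have h7 : 1 ≤ δ * (law p b (b ω) / law p b' (b' ω)) := by
          rw [← mul_div_assoc, le_div_iff₀ hl, one_mul]
          exact hc
        have h8 : p ω * lm J ≤ δ * lm J * (p ω * (law p b (b ω) / law p b' (b' ω))) := by
          have h9 : p ω * lm J * 1 ≤ p ω * lm J * (δ * (law p b (b ω) / law p b' (b' ω))) :=
            mul_le_mul_of_nonneg_left h7 (mul_nonneg e.le hlm)
          calc p ω * lm J = p ω * lm J * 1 := by ring
            _ ≤ _ := h9
            _ = _ := by ring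
        have h10 : 0 ≤ δ⁻¹ * (p ω / law p b (b ω) * A) :=
          mul_nonneg (inv_nonneg.2 hδ0.le) (mul_nonneg (div_nonneg e.le hL.le) hA0)
        linarith only [h6, h8, h10]
      · have h6 : p ω / law p b' (b' ω) * A' ≤ δ⁻¹ * (p ω / law p b (b ω) * A) := by
          have h7 : p ω / law p b' (b' ω) ≤ δ⁻¹ * (p ω / law p b (b ω)) := by
            rw [div_le_iff₀ hl]
            have h8 : δ⁻¹ * (p ω / law p b (b ω)) * law p b' (b' ω) =
                p ω * (law p b' (b' ω) / (δ * law p b (b ω))) := by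
              field_simp
            rw [h8]
            have h9 : 1 ≤ law p b' (b' ω) / (δ * law p b (b ω)) := by
              rw [le_div_iff₀ (mul_pos hδ0 hL), one_mul]
              exact hc.le
            calc p ω = p ω * 1 := by ring
              _ ≤ _ := mul_le_mul_of_nonneg_left h9 e.le
          calc p ω / law p b' (b' ω) * A' ≤ p ω / law p b' (b' ω) * A :=
                mul_le_mul_of_nonneg_left hsub (div_nonneg e.le hl.le)
            _ ≤ δ⁻¹ * (p ω / law p b (b ω)) * A := mul_le_mul_of_nonneg_right h7 hA0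
            _ = _ := by ring
        have h11 : 0 ≤ δ * lm J * (p ω * (law p b (b ω) / law p b' (b' ω))) :=
          mul_nonneg (mul_nonneg hδ0.le hlm) (mul_nonneg e.le (div_nonneg hL.le hl.le))
        linarith only [h6, h11]
  have hGf : ∀ (γ : Type) (c : Ω → γ), Gf (2 ^ J) p c τ =
      ∑ ω, ∑ ω', dbl p c (ω, ω') * ell (2 ^ J) (τ ω) (τ ω') := by
    intro γ c
    unfold Gf Ex
    rw [Fintype.sum_prod_type]
  have hG0 : 0 ≤ Gf (2 ^ J) p b τ := by
    rw [hGf _ b]
    refine Finset.sum_nonneg (fun ω _ => ?_)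
    rcases eq_or_lt_of_le (hp ω) with e | e
    · refine Finset.sum_nonneg (fun ω' _ => ?_)
      have : dbl p b (ω, ω') = 0 := by
        unfold dbl glue
        split_ifs
        · simp [← e]
        · rfl
      rw [this, zero_mul]
    · rw [hin _ b ω e]
      exact mul_nonneg (div_nonneg e.le (law_nonneg hp _ _)) (hnn _ b ω e)
  have hsum := nrg_sum p b w N hp h1 hw
  rw [hGf _ b']
  calc ∑ ω, ∑ ω', dbl p b' (ω, ω') * ell (2 ^ J) (τ ω) (τ ω')
      ≤ ∑ ω, (δ * lm J * (p ω * (law p b (b ω) / law p b' (b ω, w ω))) +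
        δ⁻¹ * ∑ ω', dbl p b (ω, ω') * ell (2 ^ J) (τ ω) (τ ω')) :=
        Finset.sum_le_sum (fun ω _ => key ω)
    _ = δ * lm J * (∑ ω, p ω * (law p b (b ω) / law p b' (b ω, w ω))) +
        δ⁻¹ * Gf (2 ^ J) p b τ := by
        rw [Finset.sum_add_distrib, ← Finset.mul_sum, ← Finset.mul_sum, ← hGf _ b]
    _ ≤ δ * lm J * (N + 1) + δ⁻¹ * Gf (2 ^ J) p b τ := by
        have := mul_le_mul_of_nonneg_left hsum (mul_nonneg hδ0.le hlm)
        linarith only [this]
    _ = (N + 1) / ε * Gf (2 ^ J) p b τ + ε * lm J := by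
        rw [hδ]
        field_simp
        ring
    _ ≤ (N + 1) / ε * (Gf (2 ^ J) p b τ + 1) + ε * lm J := by
        have : 0 ≤ (N + 1) / ε := by positivity
        linarith only [this]

end Pool.LQ
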